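import Pool.Agent.Z705.Defs
import Pool.Agent.Z700.SG
import Pool.Agent.Z419.Bil1

/-!
# Gross sums for numbers `m`: dependence on the line and the orientation, and the bilinear sum
-/

set_option autoImplicit false

namespace Pool.Agent.Y100.ZC

open Finset Matrix
open Pool.Agent.Z700 (V3 vec chv Ln n0 ep sgl Sg)
open Pool.Agent.Z700.SGw
open Pool.Agent.Z705 (Ok Bt W3 PairOK DD)

theorem cast_ne {m : ℕ} (hm : Ok m) : (m : ZMod 7) ≠ 0 := by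
  intro h
  rw [ZMod.natCast_eq_zero_iff] at h
  have := hm.2.2.2
  omega

theorem bt_ne {m : ℕ} {β : ZMod 7} (hm : Ok m) (hβ : Bt m β) : β ≠ 0 := by
  intro h
  unfold Bt at hβ
  rw [h] at hβ
  have h1 := cast_ne hm
  generalize (m : ZMod 7) = z at hβ h1
  revert z
  decide

theorem not_sq {m : ℕ} (hm : Ok m) (h1 : 1 < m) (k : ℕ) : m ≠ k ^ 2 := by
  intro h
  have hs := hm.1
  rw [h, pow_two] at hs
  have h2 := hs k dvd_rfl
  rw [Nat.isUnit_iff] at h2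
  rw [h2] at h
  omega

theorem t_SG (hJ : Pool.Agent.Z700.S_JAC) : Pool.Agent.Z705.S_SG := by
  intro m β hm hβ1 hne n hn hi ε hε
  have h24 := hm.2.1
  have hN8 : (3 * (m : ℤ)) % 8 = 3 := by omega
  have hO := od_of hN8
  have hβ := bt_ne hm hβ1
  have hβ2 : ((3 * (m : ℤ) : ℤ) : ZMod 7) = -β ^ 2 := by
    rw [hβ1]
    push_cast
    ring
  have hJ' := hJ (3 * m) (by
    rintro ⟨k, hk⟩
    exact not_sq hm hne k (by omega))
  have hcast : ((3 * m : ℕ) : ℤ) = 3 * (m : ℤ) := by push_cast; rfl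
  rw [hcast] at hJ'
  have hT := sum_ep _ hO hJ'
  have hS := sum_rp (3 * (m : ℤ)) β hβ hβ2 1
  rw [hT] at hS
  have hp : W3 m β = Sg (3 * (m : ℤ)) n0 β 1 + Sg (3 * (m : ℤ)) n0 β (-1) :=
    split_ep (3 * (m : ℤ)) n0 β
  set N : ℤ := 3 * (m : ℤ) with hNdef
  have hr : ∀ i : Fin 8, Sg N ![1, (rp i).1, (rp i).2] β 1 =
      if (rp i).1 ^ 2 = 4 * 1 ^ 2 then Sg N n0 β 1 else Sg N n1 β 1 := by
    intro i
    have hnz : (![1, (rp i).1, (rp i).2] : Fin 3 → ZMod 7) ≠ 0 := by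
      intro h
      have := congrFun h 0
      simp at this
    have hiso : (![1, (rp i).1, (rp i).2] : Fin 3 → ZMod 7) 0 ^ 2 +
        (![1, (rp i).1, (rp i).2] : Fin 3 → ZMod 7) 1 ^ 2 +
        (![1, (rp i).1, (rp i).2] : Fin 3 → ZMod 7) 2 ^ 2 = 0 := iso_rp i
    split_ifs with h
    · apply sg_pos _ _ _ _ hnz hiso
      unfold sgl
      exact if_pos h
    · apply sg_neg _ _ _ _ hnz hiso
      unfold sgl
      rw [if_neg (by exact h)]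
      norm_num
  rw [Finset.sum_congr rfl fun i _ => hr i, Fin.sum_univ_eight] at hS
  have e0 : (rp 0).1 ^ 2 = 4 * 1 ^ 2 := by decide
  have e1 : (rp 1).1 ^ 2 = 4 * 1 ^ 2 := by decide
  have e2 : (rp 2).1 ^ 2 = 4 * 1 ^ 2 := by decide
  have e3 : (rp 3).1 ^ 2 = 4 * 1 ^ 2 := by decide
  have e4 : ¬ (rp 4).1 ^ 2 = 4 * 1 ^ 2 := by decide
  have e5 : ¬ (rp 5).1 ^ 2 = 4 * 1 ^ 2 := by decide
  have e6 : ¬ (rp 6).1 ^ 2 = 4 * 1 ^ 2 := by decide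
  have e7 : ¬ (rp 7).1 ^ 2 = 4 * 1 ^ 2 := by decide
  rw [if_pos e0, if_pos e1, if_pos e2, if_pos e3, if_neg e4, if_neg e5, if_neg e6, if_neg e7] at hS
  have k1 := sg_n0 N hO β 1 (Or.inl rfl)
  have k2 := sg_n0 N hO β (-1) (Or.inr rfl)
  rw [neg_neg] at k2
  by_cases hs : sgl n = 1
  · rw [sg_pos _ _ _ _ hn hi hs, hs, hp]
    rcases hε with rfl | rfl <;> linarith
  · have hs' : sgl n = -1 := (sgl_cases n).resolve_left hs
    rw [sg_neg _ _ _ _ hn hi hs, hs', hp]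
    rcases hε with rfl | rfl <;> linarith

theorem w3_one (h1 : Pool.Agent.Z700.S_SG1) : W3 1 2 = 1 := by
  have h2 := h1 n0 (by decide) (by decide)
  have h3 : sgl n0 = 1 := by decide
  rw [if_pos h3, if_pos h3] at h2
  unfold W3
  have h5 : (3 * ((1 : ℕ) : ℤ)) = 3 := by norm_num
  rw [h5]
  have h4 : ∑ v ∈ (vec 3).filter (fun v => Ln n0 2 v), chv v =
      Pool.Agent.Z700.Sg 3 n0 2 1 + Pool.Agent.Z700.Sg 3 n0 2 (-1) := split_ep 3 n0 2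
  rw [h4, h2.1, h2.2]
  norm_num

/-- the contribution of one line -/
theorem line_val (h : Pool.Agent.Z705.S_SG) (h1 : Pool.Agent.Z700.S_SG1) {m1 m2 : ℕ}
    {β1 β2 : ZMod 7} (hP : PairOK m1 m2 β1 β2) (n : Fin 3 → ZMod 7) (hn : n ≠ 0)
    (hi : n 0 ^ 2 + n 1 ^ 2 + n 2 ^ 2 = 0) :
    2 * (Sg (3 * (m1 : ℤ)) n β1 1 * Sg (3 * (m2 : ℤ)) n β2 (-1) +
      Sg (3 * (m1 : ℤ)) n β1 (-1) * Sg (3 * (m2 : ℤ)) n β2 1) = W3 m1 β1 * W3 m2 β2 := by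
  obtain ⟨hm1, hm2, hb1, hb2, ho1, ho2, -, hne⟩ := hP
  have hE := h1 n hn hi
  have p1 : 1 ≤ m1 := by have := hm1.2.1; omega
  have p2 : 1 ≤ m2 := by have := hm2.2.1; omega
  have c3 : (3 * ((1 : ℕ) : ℤ)) = 3 := by norm_num
  rcases Nat.eq_or_lt_of_le p1 with e1 | e1
  · rcases Nat.eq_or_lt_of_le p2 with e2 | e2
    · omega
    · have k1 := h m2 β2 hm2 hb2 e2 n hn hi 1 (Or.inl rfl)
      have k2 := h m2 β2 hm2 hb2 e2 n hn hi (-1) (Or.inr rfl)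
      have q1 := ho1 e1.symm
      subst q1
      subst e1
      rw [c3, hE.1, hE.2, w3_one h1]
      rcases sgl_cases n with s | s
      · rw [s] at k1 k2 ⊢
        norm_num at k1 k2 ⊢
        linarith
      · rw [s] at k1 k2 ⊢
        norm_num at k1 k2 ⊢
        linarith
  · rcases Nat.eq_or_lt_of_le p2 with e2 | e2
    · have k1 := h m1 β1 hm1 hb1 e1 n hn hi 1 (Or.inl rfl)
      have k2 := h m1 β1 hm1 hb1 e1 n hn hi (-1) (Or.inr rfl)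
      have q1 := ho2 e2.symm
      subst q1
      subst e2
      rw [c3, hE.1, hE.2, w3_one h1]
      rcases sgl_cases n with s | s
      · rw [s] at k1 k2 ⊢
        norm_num at k1 k2 ⊢
        linarith
      · rw [s] at k1 k2 ⊢
        norm_num at k1 k2 ⊢
        linarith
    · have k1 := h m1 β1 hm1 hb1 e1 n hn hi 1 (Or.inl rfl)
      have k2 := h m1 β1 hm1 hb1 e1 n hn hi (-1) (Or.inr rfl)
      have k3 := h m2 β2 hm2 hb2 e2 n hn hi 1 (Or.inl rfl)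
      have k4 := h m2 β2 hm2 hb2 e2 n hn hi (-1) (Or.inr rfl)
      have hs : sgl n * sgl n = 1 := by
        rcases sgl_cases n with s | s <;> rw [s] <;> norm_num
      have e5 : (2 * Sg (3 * (m1 : ℤ)) n β1 1) * (2 * Sg (3 * (m2 : ℤ)) n β2 (-1)) =
          W3 m1 β1 * W3 m2 β2 := by
        rw [k1, k4]
        linear_combination (W3 m1 β1 * W3 m2 β2) * hs
      have e6 : (2 * Sg (3 * (m1 : ℤ)) n β1 (-1)) * (2 * Sg (3 * (m2 : ℤ)) n β2 1) =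
          W3 m1 β1 * W3 m2 β2 := by
        rw [k2, k3]
        linear_combination (W3 m1 β1 * W3 m2 β2) * hs
      linarith

theorem t_BIL1 (h : Pool.Agent.Z705.S_SG) (h1 : Pool.Agent.Z700.S_SG1) :
    Pool.Agent.Z705.S_BIL1 := by
  intro m1 m2 β1 β2 hP
  have e1 := hP.1.2.1
  have e2 := hP.2.1.2.1
  have c7 : ((3 * (m1 : ℤ) : ℤ) : ZMod 7) ≠ 0 := by
    push_cast
    exact mul_ne_zero (by decide) (cast_ne hP.1)
  have k := Pool.Agent.Z419.rhs_eq (N1 := 3 * (m1 : ℤ)) (N2 := 3 * (m2 : ℤ))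
    (B := 9 * (m1 : ℤ) * (m2 : ℤ)) (β1 := β1) (β2 := β2)
    (by omega) (by omega) (by omega) (by omega) (by ring) (bt_ne hP.1 hP.2.2.1) c7
  have k2 : 2 * ∑ n : Fin 3 → ZMod 7, (if n ≠ 0 ∧ n 0 ^ 2 + n 1 ^ 2 + n 2 ^ 2 = 0 then
        Pool.Agent.Z700.Sg (3 * (m1 : ℤ)) n β1 1 *
          Pool.Agent.Z700.Sg (3 * (m2 : ℤ)) n β2 (-1) +
        Pool.Agent.Z700.Sg (3 * (m1 : ℤ)) n β1 (-1) *
          Pool.Agent.Z700.Sg (3 * (m2 : ℤ)) n β2 1 else 0) =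
      48 * (W3 m1 β1 * W3 m2 β2) := by
    rw [Finset.mul_sum]
    have k3 : ∀ n : Fin 3 → ZMod 7, (2 * if n ≠ 0 ∧ n 0 ^ 2 + n 1 ^ 2 + n 2 ^ 2 = 0 then
        Pool.Agent.Z700.Sg (3 * (m1 : ℤ)) n β1 1 *
          Pool.Agent.Z700.Sg (3 * (m2 : ℤ)) n β2 (-1) +
        Pool.Agent.Z700.Sg (3 * (m1 : ℤ)) n β1 (-1) *
          Pool.Agent.Z700.Sg (3 * (m2 : ℤ)) n β2 1 else 0) =
        if n ≠ 0 ∧ n 0 ^ 2 + n 1 ^ 2 + n 2 ^ 2 = 0 then W3 m1 β1 * W3 m2 β2 else 0 := by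
      intro n
      by_cases hn : n ≠ 0 ∧ n 0 ^ 2 + n 1 ^ 2 + n 2 ^ 2 = 0
      · rw [if_pos hn, if_pos hn, line_val h h1 hP n hn.1 hn.2]
      · rw [if_neg hn, if_neg hn, mul_zero]
    rw [Finset.sum_congr rfl fun n _ => k3 n, ← Finset.sum_filter, Finset.sum_const,
      Pool.Agent.Z419.card48, nsmul_eq_mul]
    norm_num
  have k4 : ∑ b ∈ (Ioo (-(9 * (m1 : ℤ) * (m2 : ℤ))) (9 * (m1 : ℤ) * (m2 : ℤ))).filter
      (fun b : ℤ => b % 4 = 1), DD m1 m2 β1 β2 b =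
      ∑ b ∈ (Ioo (-(9 * (m1 : ℤ) * (m2 : ℤ))) (9 * (m1 : ℤ) * (m2 : ℤ))).filter
      (fun b : ℤ => b % 4 = 1), Pool.Agent.Z700.DD (3 * (m1 : ℤ)) (3 * (m2 : ℤ))
        β1 β2 b := rfl
  rw [k4]
  linarith

end Pool.Agent.Y100.ZC
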